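import Mathlib
import Pool.Agent.Helper64.Rho.Defs
import Pool.Agent.EXT.Upper

set_option autoImplicit false

namespace Pool.Agent.Results.MP_ec93d3_co.ExponentThree

open Pool.Agent.Helper64.Rho

/-- For every finite abelian group `G` of exponent dividing `3`, of order `3 ^ k`, and every `m`:
`G` has a generating set of size `m` that avoids `0` if and only if `k ≤ m < 3 ^ k`, and then the
least number of subset sums of such a set is `2 ^ (k + 1)` if `m = k + 2` and otherwise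
`3 ^ j * 2 ^ (k - j)`, where `j` is the least number with `m + j < 3 ^ j + k`. -/
theorem result : ∀ (G : Type) [AddCommGroup G] [Finite G] (k m : ℕ),
    (∀ x : G, 3 • x = 0) → Nat.card G = 3 ^ k →
    ((sizes G m).Nonempty ↔ k ≤ m ∧ m < 3 ^ k) ∧
    (m = k + 2 → m < 3 ^ k → rho G m = 2 ^ (k + 1)) ∧
    (m ≠ k + 2 → k ≤ m → m < 3 ^ k →
      ∃ j ≤ k, IsLeast {i | m + i < 3 ^ i + k} j ∧ rho G m = 3 ^ j * 2 ^ (k - j)) := by
  classical
  intro G _ _ k m hx hG
  have : Fintype G := Fintype.ofFinite G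
  have h3 : ∀ x : G, x + x + x = 0 := by
    intro x
    have h := hx x
    rw [show (3 : ℕ) = 1 + 1 + 1 from rfl, add_nsmul, add_nsmul, one_nsmul] at h
    exact h
  have hnc : ∀ A : Finset G, (subsetSums A).ncard = (FS A id).card := by
    intro A
    have h : subsetSums A = ((FS A id : Finset G) : Set G) := by
      ext x
      rw [Finset.mem_coe, mem_FS]
      exact Iff.rfl
    rw [h, Set.ncard_coe_finset]
  have hsizes : ∀ A : Finset G, (0 : G) ∉ A → A.card = m →
      AddSubgroup.closure (A : Set G) = ⊤ → (FS A id).card ∈ sizes G m :=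
    fun A hA0 hAc hAg => ⟨A, hA0, hAc, hAg, hnc A⟩
  -- the least number
  have hex : m < 3 ^ k → ∃ j, IsLeast {i | m + i < 3 ^ i + k} j ∧ j ≤ k := by
    intro hm
    have hne : ∃ i, m + i < 3 ^ i + k := ⟨k, by omega⟩
    refine ⟨Nat.find hne, ⟨Nat.find_spec hne, fun i hi => Nat.find_min' hne hi⟩, ?_⟩
    exact Nat.find_min' hne (by omega)
  have hup : ∀ j, k ≤ m → j ≤ k → m + j < 3 ^ j + k →
      ∃ c ∈ sizes G m, c ≤ 3 ^ j * 2 ^ (k - j) := by
    intro j hkm hjk hj
    obtain ⟨A, hA0, hAc, hAg, hA⟩ := Pool.Agent.EXT.upper_gen h3 hG hkm hjk hj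
    exact ⟨_, hsizes A hA0 hAc hAg, hA⟩
  have hmem : ∀ c ∈ sizes G m, ∃ A : Finset G, (0 : G) ∉ A ∧ A.card = m ∧
      AddSubgroup.closure (A : Set G) = ⊤ ∧ (FS A id).card = c := by
    rintro c ⟨A, hA0, hAc, hAg, hA⟩
    exact ⟨A, hA0, hAc, hAg, by rw [← hnc, hA]⟩
  refine ⟨⟨?_, ?_⟩, ?_, ?_⟩
  · rintro ⟨c, hc⟩
    obtain ⟨A, hA0, hAc, hAg, -⟩ := hmem c hc
    constructor
    · have h := Pool.Agent.EXT.card_closure_le h3 A
      rw [hAg, AddSubgroup.card_top, hG, hAc] at h
      exact (Nat.pow_le_pow_iff_right (by norm_num)).mp h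
    · have h := Pool.Agent.EXT.card_insert_zero hA0 (H := ⊤) (fun a _ => AddSubgroup.mem_top a)
      rw [AddSubgroup.card_top, hG, hAc] at h
      exact h
  · rintro ⟨hkm, hm⟩
    obtain ⟨j, hj, hjk⟩ := hex hm
    obtain ⟨c, hc, -⟩ := hup j hkm hjk hj.1
    exact ⟨c, hc⟩
  · intro hmk hm
    subst hmk
    obtain ⟨A, hA0, hAc, hAg, hA⟩ := Pool.Agent.EXT.upper_two h3 hG hm
    apply le_antisymm
    · exact (Nat.sInf_le (hsizes A hA0 hAc hAg)).trans hA
    · obtain ⟨B, hB0, hBc, hBg, hB⟩ := hmem _ (Nat.sInf_mem ⟨_, hsizes A hA0 hAc hAg⟩)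
      have h := (Pool.Agent.EXT.lower h3 hG hB0 hBg).2.1 (by rw [hBc])
      rw [hB] at h
      exact h
  · intro hmk hkm hm
    obtain ⟨j, hj, hjk⟩ := hex hm
    refine ⟨j, hjk, hj, ?_⟩
    obtain ⟨c, hc, hcj⟩ := hup j hkm hjk hj.1
    apply le_antisymm
    · exact (Nat.sInf_le hc).trans hcj
    · obtain ⟨B, hB0, hBc, hBg, hB⟩ := hmem _ (Nat.sInf_mem ⟨_, hc⟩)
      obtain ⟨l1, -, l3⟩ := Pool.Agent.EXT.lower h3 hG hB0 hBg
      rw [hB] at l1 l3
      rcases Nat.eq_zero_or_pos j with hj0 | hj1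
      · rw [hj0, pow_zero, one_mul, Nat.sub_zero]
        exact l3
      · refine (l1 j hj1 ?_).2
        rw [hBc]
        have h1 : ¬ (m + (j - 1) < 3 ^ (j - 1) + k) := by
          intro h
          have h2 := hj.2 h
          omega
        rcases Nat.lt_or_ge j 3 with h2 | h2
        · have h4 : j = 1 ∨ j = 2 := by omega
          rcases h4 with rfl | rfl
          · rw [Pool.Agent.EXT.tau_one]
            rw [Nat.sub_self, pow_zero] at h1
            omega
          · rw [Pool.Agent.EXT.tau_two]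
            rw [show 2 - 1 = 1 from rfl, pow_one] at h1
            omega
        · have h4 := Pool.Agent.EXT.tau_eq h2
          omega

end Pool.Agent.Results.MP_ec93d3_co.ExponentThree
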