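import Mathlib
import Pool.Agent.Helper64.Rho.Defs
import Pool.Agent.Helper64.Rho.Upper

set_option autoImplicit false

namespace Pool.Agent.Results.MP_ec93d3_co.LargeSets

open Pool.Agent.Helper64.Rho

theorem ncard_subsetSums {G : Type} [AddCommGroup G] [DecidableEq G] (A : Finset G) :
    (subsetSums A).ncard = (FS A id).card := by
  have h : subsetSums A = ((FS A id : Finset G) : Set G) := by
    ext x
    rw [Finset.mem_coe, mem_FS]
    exact Iff.rfl
  rw [h, Set.ncard_coe_finset]

/-- For every finite abelian group `G` of order `n` and every `m` with `12 √n ≤ m < n / 2`, the least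
number of subset sums of a generating set of size `m` that avoids `0` equals the least cost of a
subgroup of order greater than `m / 2`. -/
theorem result : ∀ (G : Type) [AddCommGroup G] [Finite G] (m : ℕ),
    144 * Nat.card G ≤ m ^ 2 → 2 * m < Nat.card G →
    (sizes G m).Nonempty ∧
      IsLeast {c | ∃ H : AddSubgroup G, m < 2 * Nat.card H ∧ c = cost m H} (rho G m) := by
  classical
  intro G _ _ m h1 h2
  have : Fintype G := Fintype.ofFinite G
  have hsizes : ∀ A : Finset G, (0 : G) ∉ A → A.card = m →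
      AddSubgroup.closure (A : Set G) = ⊤ → (FS A id).card ∈ sizes G m :=
    fun A hA0 hAc hAg => ⟨A, hA0, hAc, hAg, ncard_subsetSums A⟩
  have htop : m < 2 * Nat.card (⊤ : AddSubgroup G) := by
    rw [AddSubgroup.card_top]
    omega
  have hne : (sizes G m).Nonempty := by
    obtain ⟨A, hA0, hAc, hAg, -⟩ := upper (⊤ : AddSubgroup G) m htop h1 h2
    exact ⟨_, hsizes A hA0 hAc hAg⟩
  refine ⟨hne, ?_⟩
  have hmin : ∀ H : AddSubgroup G, m < 2 * Nat.card H → rho G m ≤ cost m H := by
    intro H hH
    obtain ⟨A, hA0, hAc, hAg, hA⟩ := upper H m hH h1 h2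
    exact (Nat.sInf_le (hsizes A hA0 hAc hAg)).trans hA
  obtain ⟨A, hA0, hAc, hAg, hAr⟩ := Nat.sInf_mem hne
  have hlow : ∃ H : AddSubgroup G, m < 2 * Nat.card H ∧ cost m H ≤ rho G m := by
    obtain ⟨H, hH, hc⟩ := lower A hA0 hAg (by rw [hAc]; exact h1) (by rw [hAc]; exact h2)
    rw [hAc] at hH hc
    refine ⟨H, hH, hc.trans ?_⟩
    rw [← ncard_subsetSums, hAr]
    exact le_rfl
  constructor
  · obtain ⟨H, hH, hc⟩ := hlow
    exact ⟨H, hH, le_antisymm (hmin H hH) hc⟩
  · rintro c ⟨H, hH, rfl⟩
    exact hmin H hH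

end Pool.Agent.Results.MP_ec93d3_co.LargeSets
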