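import Mathlib
import Pool.Agent.Helper64.Rho.Defs
import Pool.Agent.SDG.UpQ

set_option autoImplicit false

namespace Pool.Agent.Results.MP_ec93d3_co.SharpQuadratic

open Pool.Agent.Helper64.Rho

/-- `c h t = 1 + ∑_{i = 1}^t ⌈i / (2 h)⌉` (here `⌈i / (2 h)⌉` is written as `(i - 1) / (2 h) + 1`). -/
def c (h t : ℕ) : ℕ := 1 + ∑ i ∈ Finset.range t, (i / (2 * h) + 1)

/-- The least of the numbers `n` and `h * c h (max 1 (m + 1 - h))`, `h` a divisor of `n`, `1 ≤ h < n`. -/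
noncomputable def bound (n m : ℕ) : ℕ :=
  sInf ({n} ∪ {x | ∃ h, h ∣ n ∧ h < n ∧ 1 ≤ h ∧ x = h * c h (max 1 (m + 1 - h))})

/-- For every finite abelian group `G` of order `n ≥ 2` and every `m ≥ 1` with `m (m + 1) ≤ 2 (n - 1)`,
or `m` even and `m ^ 2 ≤ 2 (n - 1)`, or `8 (n - 1) ≤ (m + 2) ^ 2`: every generating set of size `m` that
avoids `0` has at least `bound n m` subset sums, and the least number of subset sums is `bound n m` if
`bound n m = n` or `bound n m = h * c h (max 1 (m + 1 - h))` for the order `h` of some subgroup `H`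
with cyclic quotient `G / H`. -/
theorem result : ∀ (G : Type) [AddCommGroup G] [Finite G] (m : ℕ), 1 ≤ m → 2 ≤ Nat.card G →
    (m * (m + 1) ≤ 2 * (Nat.card G - 1) ∨ (Even m ∧ m ^ 2 ≤ 2 * (Nat.card G - 1)) ∨
      8 * (Nat.card G - 1) ≤ (m + 2) ^ 2) →
    (sizes G m).Nonempty →
    bound (Nat.card G) m ≤ rho G m ∧
    ((bound (Nat.card G) m = Nat.card G ∨ ∃ H : AddSubgroup G, IsAddCyclic (G ⧸ H) ∧
        bound (Nat.card G) m = Nat.card H * c (Nat.card H) (max 1 (m + 1 - Nat.card H))) →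
      rho G m = bound (Nat.card G) m) := by
  intro G _ _ m h1 h2 hr hne
  have hR : Pool.Agent.SDG.Rg (Nat.card G) m := by
    unfold Pool.Agent.SDG.Rg
    rcases hr with h | ⟨he, h⟩ | h
    · exact Or.inl h
    · exact Or.inr (Or.inl ⟨Nat.even_iff.1 he, h⟩)
    · exact Or.inr (Or.inr h)
  obtain ⟨ha, hb⟩ := Pool.Agent.SDG.all_Fq G m h1 h2 hR
  refine ⟨ha hne, fun hc => ?_⟩
  have hle : bound (Nat.card G) m ≤ Nat.card G := Nat.sInf_le (Or.inl rfl)
  rcases lt_or_eq_of_le hle with hlt | heq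
  · rcases hc with hc | ⟨H, hcyc, hH⟩
    · exact absurd hc hlt.ne
    · exact (hb (Or.inr ⟨hlt, H, hcyc, hH.symm⟩)).2
  · exact (hb (Or.inl ⟨heq, hne⟩)).2

end Pool.Agent.Results.MP_ec93d3_co.SharpQuadratic
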