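import Mathlib
import Pool.Agent.Helper64.Rho.Defs
import Pool.Agent.SNW.FinR2

set_option autoImplicit false

namespace Pool.Agent.Results.MP_ec93d3_co.TwoGenerators

open Pool.Agent.Helper64.Rho

/-- `c h t = 1 + ∑_{i = 1}^t ⌈i / (2 h)⌉` (here `⌈i / (2 h)⌉` is written as `(i - 1) / (2 h) + 1`). -/
def c (h t : ℕ) : ℕ := 1 + ∑ i ∈ Finset.range t, (i / (2 * h) + 1)

open scoped Classical in
/-- The value of a subgroup `H ≠ G` of order `h`: `h * c h (max 1 (m + 1 - h))` if `G / H` is cyclic,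
`2 * h * c h (max 1 (m - h))` if `G / H` is not cyclic and `H ≠ 0`, and if `G` is not cyclic and `H = 0`, it is
`2 * c 1 (m - 1)` except for `m = 4` (`9`) and `m = 6` (`19`). -/
noncomputable def value {G : Type} [AddCommGroup G] (m : ℕ) (H : AddSubgroup G) : ℕ :=
  if IsAddCyclic (G ⧸ H) then Nat.card H * c (Nat.card H) (max 1 (m + 1 - Nat.card H))
  else if H = ⊥ then (if m = 4 then 9 else if m = 6 then 19 else 2 * c 1 (m - 1))
  else 2 * Nat.card H * c (Nat.card H) (max 1 (m - Nat.card H))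

/-- The five exceptional cases: `G` of order `n` and exponent `e` (so `G` is `Z_2 × Z_4`, `Z_3 × Z_3`, `Z_4 × Z_4`,
`Z_3 × Z_6`, `Z_4 × Z_8` if it has two generators) and `m = 4, 4, 6, 7, 10`. -/
def exceptional (n e m : ℕ) : Prop :=
  (n = 8 ∧ e = 4 ∧ m = 4) ∨ (n = 9 ∧ e = 3 ∧ m = 4) ∨ (n = 16 ∧ e = 4 ∧ m = 6) ∨
    (n = 18 ∧ e = 6 ∧ m = 7) ∨ (n = 32 ∧ e = 8 ∧ m = 10)

open scoped Classical in
/-- `|G| - 1` in the exceptional cases, and otherwise the least of `|G|` and the values of the subgroups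
`H ≠ G`. -/
noncomputable def best (G : Type) [AddCommGroup G] (m : ℕ) : ℕ :=
  if exceptional (Nat.card G) (AddMonoid.exponent G) m then Nat.card G - 1
  else sInf ({Nat.card G} ∪ {v | ∃ H : AddSubgroup G, H ≠ ⊤ ∧ v = value m H})

/-- For every finite abelian group `G` generated by two elements and every `m ≥ 1`: there is a generating set of
size `m` that avoids `0` exactly if `m < |G|` and (`G` is cyclic or `m ≥ 2`), and then the least number of subset
sums of such a set is `best G m`. -/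
theorem result : ∀ (G : Type) [AddCommGroup G] [Finite G] (a b : G), AddSubgroup.closure {a, b} = ⊤ →
    ∀ m : ℕ, 1 ≤ m →
      ((sizes G m).Nonempty ↔ m < Nat.card G ∧ (IsAddCyclic G ∨ 2 ≤ m)) ∧
        ((sizes G m).Nonempty → rho G m = best G m) := by
  intro G _ _ a b hab m hm
  obtain ⟨h1, h2⟩ := Pool.Agent.SNW.all_Fin3 G a b hab m hm
  have h3 : ((sizes G m).Nonempty ↔ m < Nat.card G ∧ (IsAddCyclic G ∨ 2 ≤ m)) := by
    rw [h1]
    constructor
    · rintro ⟨h4, h5⟩
      exact ⟨h4, or_iff_not_imp_left.2 h5⟩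
    · rintro ⟨h4, h5⟩
      exact ⟨h4, or_iff_not_imp_left.1 h5⟩
  refine ⟨h3, fun h4 => ?_⟩
  obtain ⟨h5, h6⟩ := h1.1 h4
  have h7 := h2 h5 h6
  rw [h7]
  rfl

end Pool.Agent.Results.MP_ec93d3_co.TwoGenerators
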